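import Pool.Agent.Helper83.SU.St

/-! Project SU, module KU (Kurepa families). -/

set_option autoImplicit false

namespace Pool.Agent.Helper60.SU
open Pool.Agent.Helper83.SU Pool.Agent.Helper83.CK Cardinal Set
universe u

theorem mKU : StNR.{u} → StRN.{u} → StMG.{u} → StDM.{u} → StKU.{u} := by
  classical
  intro hNR hRN hMG hDM k S F hk hkS hneg hF
  rcases le_total #F #S with h | h
  · exact hDM k #F #S h hneg
  obtain ⟨j, hj⟩ : ∃ j : S → F, Function.Injective j := by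
    obtain ⟨e⟩ := h
    exact ⟨e, e.injective⟩
  have hL : #(range j) = #S := mk_range_eq j hj
  obtain ⟨K, hKL, hK⟩ : ∃ K ⊆ range j, #K = k :=
    Cardinal.le_mk_iff_exists_subset.1 (by rw [hL]; exact hkS)
  obtain ⟨g0, hg0⟩ := hNR F k K (range j) hk hKL hK (by rw [hL]; exact hneg)
  obtain ⟨D, hD1⟩ : ∃ D : (ℕ → F) → F, ∀ x : ℕ → F,
      (∃ s : S, ¬ (s ∈ (x 0).1 ↔ s ∈ (x 1).1)) →
      ∃ s : S, ¬ (s ∈ (x 0).1 ↔ s ∈ (x 1).1) ∧ D x = j s := by
    refine ⟨fun x => if h : ∃ s : S, ¬ (s ∈ (x 0).1 ↔ s ∈ (x 1).1) then j h.choose else x 0, ?_⟩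
    intro x hx
    exact ⟨hx.choose, hx.choose_spec, dif_pos hx⟩
  obtain ⟨g, hg⟩ := hMG F (fun n => if n = 0 then g0 else fun _ => D)
  refine hRN F k K hk hK ⟨g, fun A hA hAK => ?_⟩
  have h0 : Cl g0 A := by simpa using (hg A).1 hA 0
  have h1 : Cl (fun _ => D) A := by simpa using (hg A).1 hA 1
  have hAL : #(A ∩ range j : Set F) < k := hg0 A h0 hAK
  have hB : #{s : S | j s ∈ A} < k := by
    refine lt_of_le_of_lt ?_ hAL
    exact Cardinal.mk_le_of_injective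
      (f := fun s : {s : S | j s ∈ A} => (⟨j s.1, s.2, mem_range_self _⟩ : (A ∩ range j : Set F)))
      (fun a b hab => Subtype.ext (hj (congrArg Subtype.val hab)))
  have hT := hF _ hB
  rw [inter_univ]
  refine lt_of_le_of_lt ?_ hT
  refine Cardinal.mk_le_of_injective
    (f := fun X : A => (⟨X.1.1 ∩ {s : S | j s ∈ A}, X.1.1, X.1.2, rfl⟩ :
      ((fun X => X ∩ {s : S | j s ∈ A}) '' F : Set (Set S)))) ?_
  intro X Y hXY
  by_contra hne
  have hXYB : X.1.1 ∩ {s : S | j s ∈ A} = Y.1.1 ∩ {s : S | j s ∈ A} := congrArg Subtype.val hXY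
  have hne' : X.1.1 ≠ Y.1.1 := fun h => hne (Subtype.ext (Subtype.ext h))
  have hex : ∃ s : S, ¬ (s ∈ X.1.1 ↔ s ∈ Y.1.1) := by
    by_contra hcon
    exact hne' (Set.ext fun s => by
      by_contra hs
      exact hcon ⟨s, hs⟩)
  have hx : ∀ n : ℕ, (if n = 0 then X.1 else Y.1) ∈ A := by
    intro n
    split_ifs
    · exact X.2
    · exact Y.2
  have hD := h1 (fun _ => true) (fun n => if n = 0 then X.1 else Y.1) hx
  obtain ⟨s, hs, hDs⟩ := hD1 (fun n => if n = 0 then X.1 else Y.1) (by simpa using hex)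
  have hsA : j s ∈ A := by
    rw [← hDs]
    exact hD
  apply hs
  have h2 : s ∈ X.1.1 ↔ s ∈ Y.1.1 := by
    constructor
    · intro h
      have : s ∈ Y.1.1 ∩ {s : S | j s ∈ A} := hXYB ▸ ⟨h, hsA⟩
      exact this.1
    · intro h
      have : s ∈ X.1.1 ∩ {s : S | j s ∈ A} := hXYB.symm ▸ ⟨h, hsA⟩
      exact this.1
  simpa using h2

end Pool.Agent.Helper60.SU
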